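import Pool.Agent.W2helper86.PL.Stm
import Pool.Agent.H620R2.Gauge.C
import Pool.Agent.H620R2.Gauge.Q

/-!
# Piece COD of project PL: the coding, and the number of the code strings

Adapted from `Pool.Agent.H620R2.Gauge.C` and `Pool.Agent.H620R2.Gauge.Q`.
-/

namespace Pool.Agent.W2helper85.PL

open Pool.Agent.NPC Pool.Agent.H622R2 Pool.Agent.H620R2.Gauge Pool.Agent.H620R2.Gauge.CC
  Pool.Agent.W2helper86.PL

/-! ### Code strings with arbitrary pad lengths -/

/-- the code string with pad length `ρ e |x|` -/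
def codeF (ρ : ℕ → ℕ → ℕ) (e : ℕ) (x : List Bool) : List Bool :=
  List.replicate e true ++ false :: (List.replicate (ρ e x.length) true ++ false :: x)

theorem codeF_inj (ρ : ℕ → ℕ → ℕ) {e e' : ℕ} {x x' : List Bool}
    (h : codeF ρ e x = codeF ρ e' x') : e = e' ∧ x = x' := by
  obtain ⟨h1, h2⟩ := rep_inj _ _ _ _ h
  obtain ⟨h3, h4⟩ := rep_inj _ _ _ _ h2
  exact ⟨h1, h4⟩

theorem lt_length_codeF (ρ : ℕ → ℕ → ℕ) (e : ℕ) (x : List Bool) :
    ρ e x.length < (codeF ρ e x).length := by
  unfold codeF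
  simp only [List.length_append, List.length_replicate, List.length_cons]
  omega

open Classical in
/-- the oracle -/
noncomputable def PhiF (ρ : ℕ → ℕ → ℕ) (V : ℕ → Oracle → List Bool → Prop) (B : Oracle)
    (y : List Bool) : Bool :=
  if h : ∃ p : ℕ × List Bool, y = codeF ρ p.1 p.2 then
    decide (V h.choose.1 (fun z => if _hz : z.length < y.length then PhiF ρ V B z else false)
      h.choose.2)
  else B y
termination_by y.length

theorem PhiF_not (ρ : ℕ → ℕ → ℕ) (V : ℕ → Oracle → List Bool → Prop) (B : Oracle)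
    (y : List Bool) (h : ∀ e x, y ≠ codeF ρ e x) : PhiF ρ V B y = B y := by
  rw [PhiF, dif_neg]
  rintro ⟨p, hp⟩
  exact h _ _ hp

open Classical in
theorem PhiF_code (ρ : ℕ → ℕ → ℕ) (V : ℕ → Oracle → List Bool → Prop) (B : Oracle)
    (hV : ∀ e A A' x, (∀ z : List Bool, z.length < (codeF ρ e x).length → A z = A' z) →
      (V e A x ↔ V e A' x)) (e : ℕ) (x : List Bool) :
    PhiF ρ V B (codeF ρ e x) = true ↔ V e (PhiF ρ V B) x := by
  have h : ∃ p : ℕ × List Bool, codeF ρ e x = codeF ρ p.1 p.2 := ⟨(e, x), rfl⟩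
  rw [PhiF, dif_pos h, decide_eq_true_iff]
  obtain ⟨h1, h2⟩ := codeF_inj ρ h.choose_spec
  rw [← h1, ← h2]
  apply hV
  intro z hz
  rw [dif_pos hz]

/-- coding with pad lengths which dominate given polynomials -/
theorem exists_codingF (g : ℕ → SAlg × Polynomial ℕ) (hg : Function.Surjective g)
    (b : ℕ → Polynomial ℕ)
    (hb : ∀ e, ∀ x a : List Bool, a.length ≤ (g e).2.eval x.length →
      ((g e).1.act (pairBits x a)).length ≤ (b e).eval x.length)
    (ρ : ℕ → ℕ → ℕ) (hρ : ∀ e n, (b e).eval n ≤ ρ e n) :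
    ∃ Φ : Oracle → Oracle, (∀ B y, (∀ e x, y ≠ codeF ρ e x) → Φ B y = B y) ∧
      ∀ B L, IsPSPACE (Φ B) L → ∃ e, ∀ x, x ∈ L ↔ Φ B (codeF ρ e x) = true := by
  set V : ℕ → Oracle → List Bool → Prop := fun e A x =>
    Acc (g e).1 (cut ((b e).eval x.length) A) x with hV
  refine ⟨PhiF ρ V, fun B y h => PhiF_not ρ V B y h, ?_⟩
  rintro B L ⟨M, p, hM⟩
  obtain ⟨e, he⟩ := hg (M, p)
  refine ⟨e, fun x => ?_⟩
  have hloc : ∀ e A A' x, (∀ z : List Bool, z.length < (codeF ρ e x).length → A z = A' z) →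
      (V e A x ↔ V e A' x) := by
    intro e A A' x h
    have hcut : cut ((b e).eval x.length) A = cut ((b e).eval x.length) A' := by
      funext z
      unfold cut
      split_ifs with hz
      · apply h
        have h1 := lt_length_codeF ρ e x
        have h2 := hρ e x.length
        omega
      · rfl
    simp only [hV, hcut]
  rw [PhiF_code ρ V B hloc e x]
  change x ∈ L ↔ Acc (g e).1 (cut ((b e).eval x.length) (PhiF ρ V B)) x
  have hbe := hb e
  rw [he] at hbe ⊢
  obtain ⟨hM1, s, z, hs, hz, hL⟩ := hM x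
  have hcong : ∀ s, M.Reach (cut ((b e).eval x.length) (PhiF ρ V B)) x s ↔
      M.Reach (PhiF ρ V B) x s := by
    refine reach_congr (fun s => s.length ≤ p.eval x.length) hM1 ?_
    intro s q h1 h2
    have h3 := hbe x s h1
    rw [h2, List.length_cons] at h3
    unfold cut
    rw [if_pos (by omega)]
  constructor
  · intro hx
    refine ⟨s, (hcong s).2 hs, ?_⟩
    rw [hz, hL.1 hx]
  · rintro ⟨t, ht, ht2⟩
    have hst := reach_unique hs ((hcong t).1 ht) ⟨_, hz⟩ ⟨_, ht2⟩
    rw [hst, ht2] at hz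
    simp only [List.cons.injEq, true_and] at hz
    exact hL.2 hz.symm

/-! ### The numbers -/

theorem size_mul_le (m n : ℕ) : Nat.size (m * n) ≤ Nat.size m + Nat.size n := by
  rcases Nat.eq_zero_or_pos m with rfl | hm
  · simp
  apply Nat.size_le.2
  rw [pow_add]
  exact Nat.mul_lt_mul'' (Nat.lt_size_self m) (Nat.lt_size_self n)

theorem size_succ_le (n : ℕ) : Nat.size (n + 1) ≤ Nat.size n + 1 := by
  apply Nat.size_le.2
  have := Nat.lt_size_self n
  have h2 : 2 ^ (Nat.size n + 1) = 2 ^ Nat.size n * 2 := pow_succ _ _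
  have h3 : 1 ≤ 2 ^ Nat.size n := Nat.one_le_two_pow
  omega

theorem size_add_le (e n : ℕ) :
    Nat.size (e + n + 1) ≤ (Nat.size (e + 1) + 1) * (Nat.size n + 1) := by
  have h1 : Nat.size (e + n + 1) ≤ Nat.size ((e + 1) * (n + 1)) :=
    Nat.size_le_size (by nlinarith)
  have h2 := size_mul_le (e + 1) (n + 1)
  have h3 := size_succ_le n
  nlinarith

theorem poly_le_pad (b : Polynomial ℕ) : ∃ c : ℕ, ∀ n k : ℕ, 1 ≤ k →
    b.eval n ≤ 2 ^ (c * (Nat.size n + 1) ^ k) := by
  have h : ∀ n : ℕ, b.eval n ≤ b.eval 1 * (n + 1) ^ b.natDegree := by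
    intro n
    rw [Polynomial.eval_eq_sum_range, Polynomial.eval_eq_sum_range, Finset.sum_mul]
    refine Finset.sum_le_sum fun i hi => ?_
    rw [one_pow, mul_one]
    refine Nat.mul_le_mul_left _ ?_
    calc n ^ i ≤ (n + 1) ^ i := Nat.pow_le_pow_left (by omega) _
      _ ≤ (n + 1) ^ b.natDegree := Nat.pow_le_pow_right (by omega)
          (Nat.lt_succ_iff.1 (Finset.mem_range.1 hi))
  refine ⟨Nat.size (b.eval 1) + b.natDegree, fun n k hk => ?_⟩
  have h1 : b.eval 1 ≤ 2 ^ Nat.size (b.eval 1) := (Nat.lt_size_self _).le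
  have h2 : n + 1 ≤ 2 ^ Nat.size n := Nat.lt_size_self n
  calc b.eval n ≤ b.eval 1 * (n + 1) ^ b.natDegree := h n
    _ ≤ 2 ^ Nat.size (b.eval 1) * (2 ^ Nat.size n) ^ b.natDegree :=
        Nat.mul_le_mul h1 (Nat.pow_le_pow_left h2 _)
    _ = 2 ^ (Nat.size (b.eval 1) + Nat.size n * b.natDegree) := by
        rw [← pow_mul, ← pow_add]
    _ ≤ 2 ^ ((Nat.size (b.eval 1) + b.natDegree) * (Nat.size n + 1) ^ k) := by
        apply Nat.pow_le_pow_right (by norm_num)
        have h3 : Nat.size n + 1 ≤ (Nat.size n + 1) ^ k := Nat.le_self_pow (by omega) _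
        calc Nat.size (b.eval 1) + Nat.size n * b.natDegree
            ≤ (Nat.size (b.eval 1) + b.natDegree) * (Nat.size n + 1) := by nlinarith
          _ ≤ _ := Nat.mul_le_mul_left _ h3

theorem p_coding : P_coding := by
  intro k hk C
  obtain ⟨g, hg⟩ := exists_enum
  choose b hb using fun e : ℕ => act_length (g e).1 (g e).2
  choose c hc using fun e : ℕ => poly_le_pad (b e)
  set d : ℕ → ℕ := fun e => C * (Nat.size (e + 1) + 1) ^ k + c e with hd
  obtain ⟨Φ, h1, h2⟩ := exists_codingF g hg b hb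
    (fun e n => 2 ^ (d e * (Nat.size n + 1) ^ k)) (by
      intro e n
      refine (hc e n k hk).trans (Nat.pow_le_pow_right (by norm_num) ?_)
      exact Nat.mul_le_mul_right _ (Nat.le_add_left _ _))
  refine ⟨d, Φ, ?_, fun B y h => h1 B y h, fun B L hL => h2 B L hL⟩
  intro e n
  calc C * Nat.size (e + n + 1) ^ k
      ≤ C * ((Nat.size (e + 1) + 1) * (Nat.size n + 1)) ^ k :=
        Nat.mul_le_mul_left _ (Nat.pow_le_pow_left (size_add_le e n) _)
    _ = C * (Nat.size (e + 1) + 1) ^ k * (Nat.size n + 1) ^ k := by rw [mul_pow, mul_assoc]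
    _ ≤ d e * (Nat.size n + 1) ^ k := Nat.mul_le_mul_right _ (Nat.le_add_right _ _)

/-! ### There are few code strings -/

theorem length_kode (k : ℕ) (d : ℕ → ℕ) (e : ℕ) (x : List Bool) :
    2 ^ (d e * (Nat.size x.length + 1) ^ k) < (kode k d e x).length :=
  lt_length_codeF (fun e n => 2 ^ (d e * (Nat.size n + 1) ^ k)) e x

theorem p_sparse : P_sparse := by
  classical
  intro k C d hk hR N J hJ
  -- choose `e` and `x`
  let P : ℕ → Prop := fun i => ∃ e x, str i = kode k d e x
  let w : ℕ → List Bool := fun i =>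
    if h : P i then List.replicate h.choose true ++ false :: h.choose_spec.choose else []
  have hw : ∀ i, (h : P i) → w i =
      List.replicate h.choose true ++ false :: h.choose_spec.choose := fun i h => dif_pos h
  have hcode : ∀ i, (h : P i) → str i = kode k d h.choose h.choose_spec.choose :=
    fun i h => h.choose_spec.choose_spec
  rw [← Finset.card_range (2 ^ (J + 1))]
  apply Finset.card_le_card_of_injOn (fun i => idx (w i))
  · intro i hi
    rw [Finset.mem_coe, Finset.mem_filter, Finset.mem_range] at hi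
    have hP : P i := hi.2
    rw [Finset.mem_coe, Finset.mem_range]
    have h1 := hcode i hP
    have h2 := length_kode k d hP.choose hP.choose_spec.choose
    rw [← h1, length_str] at h2
    have h3 := hR hP.choose hP.choose_spec.choose.length
    have h4 : Nat.log 2 (i + 1) ≤ Nat.log 2 N := Nat.log_mono_right (by omega)
    have h5 : C * Nat.size (hP.choose + hP.choose_spec.choose.length + 1) ^ k <
        C * Nat.size (J + 1) ^ k := by
      refine lt_of_le_of_lt h3 ?_
      refine (Nat.pow_lt_pow_iff_right (a := 2) (by norm_num)).1 ?_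
      omega
    have h6 : hP.choose + hP.choose_spec.choose.length + 1 < J + 1 := by
      by_contra hcon
      push Not at hcon
      have h7 := Nat.size_le_size hcon
      have h8 := Nat.mul_le_mul_left C (Nat.pow_le_pow_left h7 k)
      omega
    have h7 : (w i).length ≤ J := by
      rw [hw i hP]
      simp
      omega
    have h8 := idx_lt (w i)
    have h9 : 2 ^ ((w i).length + 1) ≤ 2 ^ (J + 1) := Nat.pow_le_pow_right (by norm_num) (by omega)
    show idx (w i) < 2 ^ (J + 1)
    omega
  · intro i hi j hj hij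
    rw [Finset.mem_coe, Finset.mem_filter] at hi hj
    have hPi : P i := hi.2
    have hPj : P j := hj.2
    have h1 : w i = w j := by
      have := congrArg str hij
      simpa [str_idx] using this
    rw [hw i hPi, hw j hPj] at h1
    obtain ⟨h2, h3⟩ := marker_inj h1
    apply str_injective
    have h4 : ∀ (e e' : ℕ) (x x' : List Bool), e = e' → x = x' →
        kode k d e x = kode k d e' x' := by
      intro e e' x x' he hx
      rw [he, hx]
    rw [hcode i hPi, hcode j hPj]
    exact h4 _ _ _ _ h2 h3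

end Pool.Agent.W2helper85.PL
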